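import Mathlib

open MeasureTheory ProbabilityTheory Set Finset
open scoped ENNReal

namespace Pool.Agent.Results.MP_b215e8_pr.Counter

/-- cover time for inter-arrival times `ω.1`, seeds `ω.2` and speed `v` -/
noncomputable def C {S : Type} [MetricSpace S] (v : ℝ) (ω : (ℕ → ℝ) × (ℕ → S)) : ℝ :=
  sInf {t | 0 ≤ t ∧ ∀ x, ∃ i, ∑ j ∈ range (i + 1), ω.1 j ≤ t ∧
    dist (ω.2 i) x ≤ v * (t - ∑ j ∈ range (i + 1), ω.1 j)}

/-- law of the inter-arrival times and of the seeds -/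
noncomputable def P {S : Type} [MeasurableSpace S] (l : ℝ) (μ : Measure S) : Measure ((ℕ → ℝ) × (ℕ → S)) :=
  (Measure.infinitePi fun _ => expMeasure l).prod (Measure.infinitePi fun _ => μ)

/-- mean cover time -/
noncomputable def EC {S : Type} [MetricSpace S] [MeasurableSpace S] (l v : ℝ) (μ : Measure S) : ℝ≥0∞ :=
  ∫⁻ ω, ENNReal.ofReal (C v ω) ∂P l μ

def G := Multiplicative (ZMod 10)
instance : CommGroup G := inferInstanceAs (CommGroup (Multiplicative (ZMod 10)))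
instance : Fintype G := inferInstanceAs (Fintype (Multiplicative (ZMod 10)))
instance : DecidableEq G := inferInstanceAs (DecidableEq (Multiplicative (ZMod 10)))
def h : G := Multiplicative.ofAdd (5 : ZMod 10)
def d (x y : G) : ℕ :=
  if x = y then 0 else if (Multiplicative.toAdd (α := ZMod 10) (x / y) + 2).val ≤ 4 then 1 else 2

instance : MetricSpace G where
  dist x y := d x y
  dist_self x := by simp [d]
  dist_comm x y := congrArg _ (by revert x y; decide)
  dist_triangle x y z := by exact_mod_cast (by revert x y z; decide +kernel : d x z ≤ d x y + d y z)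
  eq_of_dist_eq_zero {x y} h := by revert x y; simp only [Nat.cast_eq_zero]; decide

instance : MeasurableSpace G := borel G
instance : BorelSpace G := ⟨rfl⟩

lemma d2 (x y : G) : dist x y ≤ 2 := by
  change (d x y : ℝ) ≤ 2
  exact_mod_cast (by revert x y; decide : d x y ≤ 2)

lemma up (ω : (ℕ → ℝ) × (ℕ → G)) (h0 : ∀ i, 0 ≤ ω.1 i) :
    C 1 ω + ({e : ℕ → ℝ | e 1 ≤ 1 / 2} ×ˢ {σ : ℕ → G | σ 1 = σ 0 * h}).indicator (fun _ => (1 / 2 : ℝ)) ω
      ≤ ω.1 0 + 2 := by
  have := h0 0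
  by_cases H : ω ∈ {e : ℕ → ℝ | e 1 ≤ 1 / 2} ×ˢ {σ : ℕ → G | σ 1 = σ 0 * h}
  · rw [indicator_of_mem H, ← le_sub_iff_add_le]
    refine csInf_le ⟨0, fun t h => h.1⟩ ⟨by linarith, fun x => ?_⟩
    have h1 : ω.1 1 ≤ 1 / 2 := H.1
    rcases (by decide : ∀ a x : G, d a x ≤ 1 ∨ d (a * h) x ≤ 1) (ω.2 0) x with e | e
    · have : dist (ω.2 0) x ≤ 1 := show (d _ _ : ℝ) ≤ 1 by exact_mod_cast e
      exact ⟨0, by simp; linarith, by simp; linarith⟩
    · have : dist (ω.2 1) x ≤ 1 := show (d _ _ : ℝ) ≤ 1 by rw [H.2]; exact_mod_cast e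
      exact ⟨1, by simp [sum_range_succ]; linarith, by simp [sum_range_succ]; linarith⟩
  · rw [indicator_of_notMem H, add_zero]
    exact csInf_le ⟨0, fun t h => h.1⟩ ⟨by linarith, fun x => ⟨0, by simp, by simpa using d2 _ _⟩⟩

lemma low (ω : (ℕ → ℝ) × (ℕ → G)) (h0 : ∀ i, 0 ≤ ω.1 i) :
    ω.1 0 + 2 ≤ C 1 ω + (({e : ℕ → ℝ | e 1 ≤ 1} ×ˢ {σ : ℕ → G | σ 1 = σ 0 * h}).indicator (fun _ => (1 : ℝ)) ω +
      ({e : ℕ → ℝ | e 1 ≤ 2 ∧ e 2 ≤ 2} ×ˢ (Set.univ : Set (ℕ → G))).indicator (fun _ => (2 : ℝ)) ω) := by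
  rw [← sub_le_iff_le_add]
  refine le_csInf ⟨ω.1 0 + 2, by linarith [h0 0], fun x => ⟨0, by simp, by simpa using d2 _ _⟩⟩
    fun t ⟨_, H⟩ => ?_
  have mono : ∀ i k, k ≤ i → ∑ j ∈ range (k + 1), ω.1 j ≤ ∑ j ∈ range (i + 1), ω.1 j := fun i k h =>
    sum_le_sum_of_subset_of_nonneg (by simpa) fun j _ _ => h0 j
  have t0 : ω.1 0 ≤ t := let ⟨i, h, _⟩ := H 1; by simpa using (mono i 0 i.zero_le).trans h
  have a := indicator_nonneg (s := {e : ℕ → ℝ | e 1 ≤ 1} ×ˢ {σ : ℕ → G | σ 1 = σ 0 * h})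
    (fun _ _ => zero_le_one' ℝ) ω
  by_cases h2 : ω ∈ {e : ℕ → ℝ | e 1 ≤ 2 ∧ e 2 ≤ 2} ×ˢ (Set.univ : Set (ℕ → G))
  · rw [indicator_of_mem h2]; linarith
  rw [indicator_of_notMem h2]
  by_contra! ht
  have far : ∀ x, d (ω.2 0) x = 2 → ω.1 0 + ω.1 1 + d (ω.2 1) x ≤ t := fun x hx => by
    obtain ⟨_ | _ | i, h, h'⟩ := H x
    · change (d _ _ : ℝ) ≤ _ at h'
      simp [hx] at h'; linarith
    · change (d _ _ : ℝ) ≤ _ at h'
      simp [sum_range_succ] at h'; linarith
    · have := (mono _ 2 (by omega)).trans h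
      simp [sum_range_succ] at this
      exact (h2 ⟨⟨by linarith [h0 2], by linarith [h0 1]⟩, trivial⟩).elim
  have e := (by decide : ∀ a b : G, (∀ x, d a x = 2 → d b x < 2) → b = a * h) (ω.2 0) (ω.2 1) fun x hx => by
    have : (d (ω.2 1) x : ℝ) < 2 := by linarith [far x hx, h0 1]
    exact_mod_cast this
  obtain ⟨x, h3, h4⟩ := (by decide : ∀ a : G, ∃ x, d a x = 2 ∧ d (a * h) x = 1) (ω.2 0)
  have := far x h3
  rw [e, h4, Nat.cast_one] at this
  rw [indicator_of_mem (show ω ∈ {e : ℕ → ℝ | e 1 ≤ 1} ×ˢ {σ : ℕ → G | σ 1 = σ 0 * h} from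
    ⟨show ω.1 1 ≤ 1 by linarith, e⟩)] at ht
  linarith [h0 1]

lemma pair (μ : Measure G) [IsProbabilityMeasure μ] :
    Measure.infinitePi (fun _ : ℕ => μ) {σ | σ 1 = σ 0 * h} = ∑ x, μ {x} * μ {x * h} := by
  rw [show {σ : ℕ → G | σ 1 = σ 0 * h} = ⋃ x, Set.pi ({0, 1} : Finset ℕ) (fun i => {if i = 0 then x else x * h})
    by ext; simp, measure_iUnion (fun x y e => Set.disjoint_left.2 fun σ a b => e
      ((a 0 (by simp)).symm.trans (b 0 (by simp)))) fun _ => .pi (Set.to_countable _) (by simp), tsum_fintype]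
  exact sum_congr rfl fun x _ => by rw [Measure.infinitePi_pi _ (by simp)]; simp

theorem result : ∃ (S : Type) (_ : MetricSpace S) (_ : Group S) (_ : MeasurableSpace S),
    CompactSpace S ∧ IsTopologicalGroup S ∧ BorelSpace S ∧ (∀ g x y : S, dist (g * x) (g * y) = dist x y) ∧
    ∃ (m μ : Measure S) (l v : ℝ), IsProbabilityMeasure m ∧ m.IsHaarMeasure ∧ IsProbabilityMeasure μ ∧
      0 < l ∧ 0 < v ∧ EC l v μ < EC l v m := by
  let l : ℝ := 1 / 1000
  have l0 : 0 < l := by norm_num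
  have := isProbabilityMeasure_expMeasure l0
  let m := Measure.haarMeasure (⊤ : TopologicalSpace.PositiveCompacts G)
  have pm : IsProbabilityMeasure m := ⟨Measure.haarMeasure_self⟩
  let μ : Measure G := (2⁻¹ : ℝ≥0∞) • Measure.dirac 1 + (2⁻¹ : ℝ≥0∞) • Measure.dirac h
  have pμ : IsProbabilityMeasure μ := ⟨by simp [μ, ENNReal.inv_two_add_inv_two]⟩
  refine ⟨G, inferInstance, inferInstance, inferInstance, inferInstance, inferInstance, inferInstance,
    fun g x y => congrArg Nat.cast (by simp [d] : d _ _ = d _ _), m, μ, l, 1, pm, Measure.isHaarMeasure_haarMeasure _, pμ, l0,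
    one_pos, ?_⟩
  set ν := Measure.infinitePi fun _ : ℕ => expMeasure l with hν
  have cd : ∀ t, 0 ≤ t → expMeasure l (Iic t) = ENNReal.ofReal (1 - Real.exp (-(l * t))) := fun t ht => by
    rw [← ofReal_cdf, cdf_expMeasure_eq l0, if_pos ht]
  have pos : ∀ᵐ t ∂expMeasure l, 0 ≤ t := by
    rw [ae_iff]; simp only [not_le]
    exact measure_mono_null (t := Iic 0) Iio_subset_Iic_self (by simp [cd])
  have mp := measurePreserving_eval_infinitePi fun _ : ℕ => expMeasure l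
  have ae : ∀ (κ : Measure G) [IsProbabilityMeasure κ], (∀ᵐ ω ∂P l κ, ∀ i, 0 ≤ ω.1 i) ∧
      ∫⁻ ω, ENNReal.ofReal (ω.1 0 + 2) ∂P l κ = ∫⁻ t, ENNReal.ofReal (t + 2) ∂expMeasure l := fun κ _ =>
    ⟨ae_all_iff.2 fun i => ((mp i).comp measurePreserving_fst).quasiMeasurePreserving.ae pos,
      ((mp 0).comp measurePreserving_fst).lintegral_comp (f := fun t => ENNReal.ofReal (t + 2)) (by fun_prop)⟩
  have fin : ∫⁻ t, ENNReal.ofReal (t + 2) ∂expMeasure l ≠ ⊤ := by
    have : ∫⁻ t, ENNReal.ofReal t ∂expMeasure l < ⊤ := by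
      rw [lintegral_eq_lintegral_meas_lt _ pos aemeasurable_id]
      refine lt_of_le_of_lt (setLIntegral_mono' measurableSet_Ioi fun t ht => ?_)
        (exp_neg_integrableOn_Ioi 0 l0).lintegral_lt_top
      rw [show {a | t < a} = (Iic t)ᶜ by ext; simp, prob_compl_eq_one_sub measurableSet_Iic, cd t ht.le,
        ENNReal.ofReal_sub _ (by positivity), ENNReal.ofReal_one, neg_mul]
      exact tsub_tsub_le
    refine ne_top_of_le_ne_top ?_ (lintegral_mono fun t => ENNReal.ofReal_add_le)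
    rw [lintegral_add_right _ measurable_const]
    simp [this.ne]
  have e1 : ∀ t, 0 ≤ t → ν {e | e 1 ≤ t} = ENNReal.ofReal (1 - Real.exp (-(l * t))) := fun t ht =>
    ((mp 1).measure_preimage (s := Iic t) measurableSet_Iic.nullMeasurableSet).trans (cd t ht)
  have e2 : ν {e | e 1 ≤ 2 ∧ e 2 ≤ 2} = ENNReal.ofReal ((1 - Real.exp (-(l * 2))) ^ 2) := by
    rw [show {e : ℕ → ℝ | e 1 ≤ 2 ∧ e 2 ≤ 2} = Set.pi ({1, 2} : Finset ℕ) fun _ => Iic 2 by ext; simp,
      Measure.infinitePi_pi _ (by simp), ENNReal.ofReal_pow (by simp; positivity)]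
    simp [cd, sq]
  have p1 : ∑ x, μ {x} * μ {x * h} = ENNReal.ofReal (1 / 2) := by
    rw [← sum_subset (subset_univ {1, h}) fun x _ hx => by simp_all [μ, eq_comm], sum_pair (by decide)]
    simp +decide [μ, ← mul_add, ENNReal.inv_two_add_inv_two]
  have p2 : ∑ x, m {x} * m {x * h} = ENNReal.ofReal (1 / 10) := by
    have : m.IsHaarMeasure := Measure.isHaarMeasure_haarMeasure _
    have a : ∀ x, m {x} = m {1} := fun x => by
      rw [← measure_preimage_mul m x⁻¹ {1}]; congr 1; ext; simp [eq_comm]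
    have c : (Finset.univ : Finset G).card = 10 := rfl
    have b : 10 * m {1} = 1 := by
      have := sum_measure_singleton (μ := m) (s := Finset.univ)
      rw [sum_congr rfl fun x _ => a x, sum_const, c, coe_univ, measure_univ, nsmul_eq_mul] at this
      exact_mod_cast this
    rw [sum_congr rfl fun x _ => by rw [a x, a (x * h)], sum_const, c, nsmul_eq_mul, ← mul_assoc]
    rw [Nat.cast_ofNat, b, one_mul, ENNReal.eq_inv_of_mul_eq_one_left ((mul_comm _ _).trans b)]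
    simp [ENNReal.ofReal_inv_of_pos]
  have ms : MeasurableSet {σ : ℕ → G | σ 1 = σ 0 * h} :=
    measurableSet_eq_fun (measurable_pi_apply 1) ((measurable_of_finite (· * h)).comp (measurable_pi_apply 0))
  have m1 : ∀ (i : ℕ) (t : ℝ), MeasurableSet {e : ℕ → ℝ | e i ≤ t} := fun i t =>
    measurableSet_le (measurable_pi_apply i) measurable_const
  have m2 : MeasurableSet ({e : ℕ → ℝ | e 1 ≤ 2 ∧ e 2 ≤ 2} ×ˢ (Set.univ : Set (ℕ → G))) :=
    ((m1 1 2).inter (m1 2 2)).prod .univ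
  have oi : ∀ (s : Set ((ℕ → ℝ) × (ℕ → G))) (c : ℝ) ω, ENNReal.ofReal (s.indicator (fun _ => c) ω) =
      s.indicator (fun _ => ENNReal.ofReal c) ω := fun s c ω => by
    by_cases H : ω ∈ s <;> simp [H]
  have c0 : ∀ ω : (ℕ → ℝ) × (ℕ → G), 0 ≤ C 1 ω := fun ω => Real.sInf_nonneg fun t h => h.1
  have u := (le_lintegral_add _ _).trans ((lintegral_mono_ae ((ae μ).1.mono fun ω h => (ENNReal.ofReal_add
    (c0 ω) (indicator_nonneg (by simp) _)).ge.trans (ENNReal.ofReal_le_ofReal (up ω h)))).trans_eq (ae μ).2)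
  have w := (ae m).2.ge.trans (lintegral_mono_ae ((ae m).1.mono fun ω h =>
    (ENNReal.ofReal_le_ofReal (low ω h)).trans (ENNReal.ofReal_add_le.trans
      (add_le_add_right ENNReal.ofReal_add_le _))))
  simp only [oi] at u w
  rw [lintegral_add_right _ ((measurable_const.indicator ((m1 1 1).prod ms)).fun_add (measurable_const.indicator m2)),
    lintegral_add_right _ (measurable_const.indicator m2), lintegral_indicator_const m2,
    lintegral_indicator_const ((m1 _ _).prod ms)] at w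
  rw [lintegral_indicator_const ((m1 _ _).prod ms)] at u
  simp only [P, ← hν, Measure.prod_prod, pair, p1, p2, e1 _ one_half_pos.le, e1 _ zero_le_one, e2,
    measure_univ, mul_one] at u w
  have n : ∀ x : ℝ, 0 ≤ x → 0 ≤ 1 - Real.exp (-x) ∧ 1 - Real.exp (-x) ≤ x := fun x hx =>
    ⟨by simpa using hx, by linarith [Real.add_one_le_exp (-x)]⟩
  have n1 := n l l0.le
  have n2 := n (l * 2) (by positivity)
  have n3 : Real.exp (-(l * (1 / 2))) ≤ 2000 / 2001 := by
    rw [Real.exp_neg, inv_le_comm₀ (by positivity) (by norm_num)]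
    exact le_trans (by norm_num [l]) (Real.add_one_le_exp _)
  rw [← ENNReal.ofReal_mul n1.1, ← ENNReal.ofReal_mul zero_le_one, ← ENNReal.ofReal_mul zero_le_two,
    ← ENNReal.ofReal_add (by linarith [n1.1]) (by positivity)] at w
  rw [← ENNReal.ofReal_mul (by linarith), ← ENNReal.ofReal_mul one_half_pos.le] at u
  by_contra! H
  have := (ENNReal.add_le_add_iff_left (ne_top_of_le_ne_top fin (le_self_add.trans u))).1
    (u.trans (w.trans (add_le_add_left H _)))
  rw [ENNReal.ofReal_le_ofReal_iff (by nlinarith [n1.1])] at this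
  have q : (1 - Real.exp (-(l * 2))) ^ 2 ≤ 4 / 10 ^ 6 :=
    (pow_le_pow_left₀ n2.1 n2.2 2).trans (by norm_num [l])
  have q' : 1 - Real.exp (-l) ≤ 1 / 1000 := n1.2
  linarith

end Pool.Agent.Results.MP_b215e8_pr.Counter
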